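import Pool.Agent.LE.StmtsC
import Pool.Agent.Helper42_LE.Joint

/-!
# The Lyapunov exponent is continuous: lower and upper semicontinuity
-/

set_option autoImplicit false

open MeasureTheory ProbabilityTheory Function Filter

open scoped ENNReal BigOperators Topology

noncomputable section

namespace Pool.Agent.LE.H42C

open Pool.Agent.Anderson Pool.Agent.Loc Pool.Agent.Mob Pool.Agent.Helper54.Bal
  Pool.Agent.LE.H96 Pool.Agent.LE.H42J

/-- the Lyapunov exponent is continuous -/
theorem con (usa : UsaStmt) (uso : UsoStmt) (smp : SmpStmt) (smn : SmnStmt) (alg : AlgStmt) :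
    ConStmt2 := by
  intro d γ hd hγ q₀ hq
  refine continuousAt_iff_lower_upperSemicontinuousAt.2
    ⟨lscJ smp smn alg d γ hd hγ q₀ hq, ?_⟩
  rcases (hγ q₀.1 hq q₀.2).1.lt_or_eq with h | h
  · exact usa d γ hd hγ q₀ hq h
  · exact uso d γ hd hγ q₀ hq h.symm

end Pool.Agent.LE.H42C
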