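import Pool.Agent.LE.StmtsC
import Pool.Agent.Helper42_LE.Joint
import Pool.Agent.Helper54_LE.LYA
import Pool.Agent.Helper93_LE.Fin

/-!
# The probabilities at one scale are continuous in the coupling constant and the energy
-/

set_option autoImplicit false
set_option linter.unusedSectionVars false

open MeasureTheory ProbabilityTheory Function Filter

open scoped ENNReal BigOperators Topology

noncomputable section

namespace Pool.Agent.LE.H42C

open Pool.Agent.Anderson Pool.Agent.Loc Pool.Agent.Mob Pool.Agent.Helper54.Bal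
  Pool.Agent.LE.H96 Pool.Agent.LE.H42J

variable {d : ℕ}

/-- an upper semicontinuity statement for the measures of events which depend on a parameter -/
theorem stable_gen {X : Type*} [TopologicalSpace X] [FirstCountableTopology X]
    {q₀ : X} {A : X → Set (Site d → ℝ)} {B : Set (Site d → ℝ)} {p p' : ℝ} (hp : 0 ≤ p)
    (hpp : p < p') (hA : ∀ q, MeasurableSet (A q))
    (hB : ∀ᵐ ξ ∂(P1 d), ξ ∉ B → ∀ᶠ q in 𝓝 q₀, ξ ∉ A q) (h : P1 d B ≤ ENNReal.ofReal p) :
    ∀ᶠ q in 𝓝 q₀, P1 d (A q) ≤ ENNReal.ofReal p' := by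
  by_contra hcon
  have hfr : ∃ᶠ q in 𝓝 q₀, ¬ P1 d (A q) ≤ ENNReal.ofReal p' := Filter.not_eventually.1 hcon
  obtain ⟨F, hF, hFp⟩ := exists_seq_forall_of_frequently hfr
  set U : ℕ → Set (Site d → ℝ) := fun n => ⋃ k, A (F (n + k)) with hU
  have hUm : ∀ n, MeasurableSet (U n) := fun n => MeasurableSet.iUnion fun k => hA _
  have hanti : Antitone U := by
    intro n m hnm V hV
    simp only [hU, Set.mem_iUnion] at hV ⊢
    obtain ⟨k, hk⟩ := hV
    refine ⟨m - n + k, ?_⟩
    have e : n + (m - n + k) = m + k := by omega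
    rw [e]
    exact hk
  have hlim := tendsto_measure_iInter_atTop (μ := P1 d)
    (fun n => (hUm n).nullMeasurableSet) hanti ⟨0, measure_ne_top _ _⟩
  have hsub : P1 d (⋂ n, U n) ≤ P1 d B := by
    refine measure_mono_ae ?_
    filter_upwards [hB] with ξ hξ hmem
    by_contra hnot
    have h1 := hF.eventually (hξ hnot)
    obtain ⟨n, hn⟩ := eventually_atTop.1 h1
    have h2 := Set.mem_iInter.1 hmem n
    simp only [hU, Set.mem_iUnion] at h2
    obtain ⟨k, hk⟩ := h2
    exact hn (n + k) (by omega) hk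
  have h3 : ENNReal.ofReal p' ≤ P1 d (⋂ n, U n) := by
    refine ge_of_tendsto' hlim fun n => ?_
    refine (not_le.1 (hFp n)).le.trans (measure_mono ?_)
    intro V hV
    simp only [hU, Set.mem_iUnion]
    exact ⟨0, hV⟩
  have h5 := h3.trans (hsub.trans h)
  rw [ENNReal.ofReal_le_ofReal_iff hp] at h5
  linarith

theorem detae (q₀ : ℝ × ℝ) (hq : q₀.1 ≠ 0) (Λ : Finset (Site d)) :
    ∀ᵐ ξ ∂(P1 d), (RM (fun y => q₀.1 * ξ y) Λ q₀.2).det ≠ 0 := by
  have hm : MeasurableSet {V : Site d → ℝ | (RM V Λ q₀.2).det = 0} :=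
    (continuous_det Λ q₀.2).measurable (measurableSet_singleton 0)
  have h := H54.PP_det (d := d) (ν := gl q₀.1) (bddDens_gl hq) Λ q₀.2
  rw [PP_eq _ hm] at h
  rw [ae_iff]
  refine le_antisymm (le_trans (measure_mono ?_) h.le) zero_le
  intro ξ hξ
  exact not_not.1 hξ

theorem tvc : TvcStmt := by
  intro d L κ κ' p p' q₀ hL hp hpp hq
  have hmS : ∀ (κ E : ℝ), MeasurableSet {V : Site d → ℝ | SG V L κ E 0} := fun κ E =>
    H93.meas_SG L κ E 0
  have hmN : ∀ (κ E : ℝ), MeasurableSet {V : Site d → ℝ | ¬ SG V L κ E 0} := fun κ E =>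
    (H93.meas_SG L κ E 0).compl
  have hL1 : (1 : ℝ) ≤ L := by exact_mod_cast hL
  constructor
  · intro hκ h
    have h' := h
    rw [PP_eq _ (hmS κ q₀.2)] at h'
    have key := stable_gen (q₀ := q₀)
      (A := fun q : ℝ × ℝ => {ξ : Site d → ℝ | (fun y => q.1 * ξ y) ∈
        {V : Site d → ℝ | SG V L κ' q.2 0}}) hp hpp
      (fun q => meas_scale q.1 (hmS κ' q.2)) ?_ h'
    · filter_upwards [key] with q hk
      rw [PP_eq _ (hmS κ' q.2)]
      exact hk
    · filter_upwards [detae q₀ hq (box (0 : Site d) L)] with ξ hdet hnot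
      have h1 : ∃ u, sd 0 u = L ∧
          Real.exp (-κ * L) < |gr (fun y => q₀.1 * ξ y) (box 0 L) q₀.2 0 u| := by
        by_contra hc
        push Not at hc
        exact hnot ⟨hdet, hc⟩
      obtain ⟨u, hu, hgt⟩ := h1
      have hlt : Real.exp (-κ' * L) < |gr (fun y => q₀.1 * ξ y) (box 0 L) q₀.2 0 u| := by
        refine lt_trans (Real.exp_lt_exp.2 ?_) hgt
        nlinarith
      have hc := (continuousAt_gr_J ξ (box 0 L) hdet 0 u).abs
      filter_upwards [continuousAt_const.eventually_lt hc hlt] with q hq' hmem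
      exact absurd (hmem.2 u hu) (not_le.2 hq')
  · intro hκ h
    have h' := h
    rw [PP_eq _ (hmN κ q₀.2)] at h'
    have key := stable_gen (q₀ := q₀)
      (A := fun q : ℝ × ℝ => {ξ : Site d → ℝ | (fun y => q.1 * ξ y) ∈
        {V : Site d → ℝ | ¬ SG V L κ' q.2 0}}) hp hpp
      (fun q => meas_scale q.1 (hmN κ' q.2)) ?_ h'
    · filter_upwards [key] with q hk
      rw [PP_eq _ (hmN κ' q.2)]
      exact hk
    · refine Filter.Eventually.of_forall fun ξ hnot => ?_
      have hgood : SG (fun y => q₀.1 * ξ y) L κ q₀.2 0 := by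
        by_contra hc
        exact hnot hc
      obtain ⟨h1, h2⟩ := hgood
      have hd : ∀ᶠ q : ℝ × ℝ in 𝓝 q₀, (RM (fun y => q.1 * ξ y) (box 0 L) q.2).det ≠ 0 :=
        (continuous_det_J ξ (box 0 L)).continuousAt.eventually_ne h1
      have hu : ∀ᶠ q : ℝ × ℝ in 𝓝 q₀, ∀ u ∈ box (0 : Site d) L, sd 0 u = L →
          |gr (fun y => q.1 * ξ y) (box 0 L) q.2 0 u| ≤ Real.exp (-κ' * L) := by
        refine (Finset.eventually_all _).2 fun u _ => ?_
        by_cases hsu : sd 0 u = L
        · have hlt : |gr (fun y => q₀.1 * ξ y) (box 0 L) q₀.2 0 u| < Real.exp (-κ' * L) := by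
            refine (h2 u hsu).trans_lt (Real.exp_lt_exp.2 ?_)
            nlinarith
          have hc := (continuousAt_gr_J ξ (box 0 L) h1 0 u).abs
          filter_upwards [hc.eventually_lt continuousAt_const hlt] with F hF _
          exact hF.le
        · exact Filter.Eventually.of_forall fun F hF => absurd hF hsu
      filter_upwards [hd, hu] with q a1 a2 hmem
      exact hmem ⟨a1, fun u hsu => a2 u (mem_box.2 hsu.le) hsu⟩

end Pool.Agent.LE.H42C
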